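import Pool.Agent.W182.PW.Tup

set_option autoImplicit false

/-!
# Regular windows for Cunningham chains with a prime first member
-/

namespace Pool.Agent.W182.PW

open Polynomial Finset Filter

/-- the property for chains of the first kind -/
def ChainS (k r : ℕ) (z : ℝ) (p : ℕ) : Prop :=
  p.Prime ∧ ∀ j : ℕ, 1 ≤ j → j ≤ k →
    (2 ^ j * (p + 1) - 1).primeFactorsList.length ≤ r ∧
    ∀ q : ℕ, q.Prime → q ∣ 2 ^ j * (p + 1) - 1 → z < (q : ℝ)

lemma chain_eq (k : ℕ) :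
    PrimeAlmost (fun i : Fin k => lin (2 ^ (i.val + 1)) (2 ^ (i.val + 1) - 1)) = ChainS k := by
  funext r z p
  apply propext
  unfold PrimeAlmost ChainS
  have h1 : ∀ j : ℕ, ((lin (2 ^ j) (2 ^ j - 1)).eval (p : ℤ)) =
      ((2 ^ j * (p + 1) - 1 : ℕ) : ℤ) := by
    intro j
    have h2 : 1 ≤ 2 ^ j * (p + 1) := Nat.mul_pos (by positivity) (by omega)
    rw [lin_eval]
    push_cast [Nat.cast_sub h2]
    ring
  constructor
  · rintro ⟨h2, h3⟩
    refine ⟨h2, fun j hj1 hj2 => ?_⟩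
    obtain ⟨i, rfl⟩ : ∃ i, j = i + 1 := ⟨j - 1, by omega⟩
    have h4 := h3 ⟨i, by omega⟩
    simp only [h1, Int.natAbs_natCast] at h4
    exact ⟨h4.1, fun q hq hd => h4.2 q hq (Int.natCast_dvd_natCast.2 hd)⟩
  · rintro ⟨h2, h3⟩
    refine ⟨h2, fun i => ?_⟩
    have h4 := h3 (i.val + 1) (by omega) (by have := i.isLt; omega)
    simp only [h1, Int.natAbs_natCast]
    exact ⟨h4.1, fun q hq hd => h4.2 q hq (Int.natCast_dvd_natCast.1 hd)⟩

open Classical in
theorem main_chain (k : ℕ) : ∃ (r : ℕ) (c₁ c₂ K κ : ℝ), 0 < c₁ ∧ 0 < c₂ ∧ 0 < K ∧ 0 < κ ∧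
    ∀ᶠ x : ℕ in atTop,
      κ * x ≤ (((Finset.Icc 1 x).filter
        (fun n => RegS (ChainS k) (k + 1) r c₁ c₂ K n)).card : ℝ) := by
  have h := main_lin (k := k) (fun i => 2 ^ (i.val + 1)) (fun i => 2 ^ (i.val + 1) - 1)
    (fun _ => by positivity)
    (fun i => ⟨1, -1, by push_cast; ring⟩)
    (fun i j hij _ => by
      apply Fin.ext
      have h1 := Nat.pow_right_injective le_rfl hij
      simpa using h1)
    (fun i h => by
      have h1 : 1 < 2 ^ (i.val + 1) := Nat.one_lt_two_pow (by omega)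
      omega)
    (by
      intro p hp
      have hp2 := hp.two_le
      refine ⟨p - 1, Nat.not_dvd_of_pos_of_lt (by omega) (by omega), fun i h => ?_⟩
      have e : ((2 ^ (i.val + 1) : ℕ) : ℤ) * ((p - 1 : ℕ) : ℤ) + (2 ^ (i.val + 1) - 1) =
          (p : ℤ) * 2 ^ (i.val + 1) - 1 := by
        push_cast [Nat.cast_sub hp.one_le]
        ring
      rw [e] at h
      have h2 : (p : ℤ) ∣ 1 := by
        have := dvd_sub (Dvd.intro (2 ^ (i.val + 1) : ℤ) rfl : (p : ℤ) ∣ (p : ℤ) * 2 ^ (i.val + 1)) h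
        simpa using this
      have h3 : p ∣ 1 := by exact_mod_cast h2
      exact hp.one_lt.ne' (Nat.dvd_one.1 h3))
  rw [RegularP_eq _ _ (chain_eq k)] at h
  exact h

end Pool.Agent.W182.PW
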