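import Pool.Agent.W182.PW.Main

set_option autoImplicit false

/-!
# Regular windows for linear forms at prime arguments
-/

namespace Pool.Agent.W182.PW

open Polynomial Finset Filter

/-- the polynomial `a X + b` -/
noncomputable def lin (a : ℕ) (b : ℤ) : ℤ[X] := C (a : ℤ) * X + C b

lemma lin_eval (a : ℕ) (b m : ℤ) : (lin a b).eval m = a * m + b := by
  unfold lin
  simp

lemma lin_irr (a : ℕ) (b : ℤ) (ha : 0 < a) (h : IsCoprime (a : ℤ) b) : Irreducible (lin a b) :=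
  irreducible_C_mul_X_add_C (by exact_mod_cast ha.ne') h.isRelPrime

lemma lin_deg (a : ℕ) (b : ℤ) (ha : 0 < a) : 0 < (lin a b).natDegree := by
  unfold lin
  rw [natDegree_linear (by exact_mod_cast ha.ne')]
  norm_num

lemma lin_lead (a : ℕ) (b : ℤ) (ha : 0 < a) : 0 < (lin a b).leadingCoeff := by
  unfold lin
  rw [leadingCoeff_linear (by exact_mod_cast ha.ne')]
  exact_mod_cast ha

lemma lin_inj {a a' : ℕ} {b b' : ℤ} (h : lin a b = lin a' b') : a = a' ∧ b = b' := by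
  have h0 : (lin a b).eval 0 = (lin a' b').eval 0 := by rw [h]
  have h1 : (lin a b).eval 1 = (lin a' b').eval 1 := by rw [h]
  rw [lin_eval, lin_eval] at h0 h1
  constructor
  · omega
  · omega

lemma lin_ne_X {a : ℕ} {b : ℤ} (h : ¬ (a = 1 ∧ b = 0)) : lin a b ≠ X := by
  intro h0
  apply h
  have h1 : (lin a b).eval 0 = 0 := by rw [h0, eval_X]
  have h2 : (lin a b).eval 1 = 1 := by rw [h0, eval_X]
  rw [lin_eval] at h1 h2
  omega

open Classical in
/-- regular windows for linear forms at prime arguments -/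
theorem main_lin {k : ℕ} (a : Fin k → ℕ) (b : Fin k → ℤ) (ha : ∀ i, 0 < a i)
    (hab : ∀ i, IsCoprime (a i : ℤ) (b i)) (hinj : ∀ i j, a i = a j → b i = b j → i = j)
    (hX : ∀ i, ¬ (a i = 1 ∧ b i = 0))
    (hadm : ∀ p : ℕ, p.Prime → ∃ m : ℕ, ¬ p ∣ m ∧ ∀ i, ¬ (p : ℤ) ∣ (a i : ℤ) * m + b i) :
    ∃ (r : ℕ) (c₁ c₂ K κ : ℝ), 0 < c₁ ∧ 0 < c₂ ∧ 0 < K ∧ 0 < κ ∧
    ∀ᶠ x : ℕ in atTop,
      κ * x ≤ (((Finset.Icc 1 x).filter
        (fun n => RegularP (fun i => lin (a i) (b i)) (k + 1) r c₁ c₂ K n)).card : ℝ) := by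
  have h := main (fun i => lin (a i) (b i)) (fun i => lin_irr _ _ (ha i) (hab i))
    (fun i => lin_deg _ _ (ha i)) (fun i => lin_lead _ _ (ha i))
    (fun i j hij => hinj i j (lin_inj hij).1 (lin_inj hij).2) (fun i => lin_ne_X (hX i))
    (fun p hp => by
      obtain ⟨m, h1, h2⟩ := hadm p hp
      refine ⟨m, h1, fun i => ?_⟩
      rw [lin_eval]
      exact h2 i)
  rw [Fintype.card_fin] at h
  exact h

end Pool.Agent.W182.PW
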