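import Pool.Agent.W182.PW.Lin

set_option autoImplicit false

/-!
# Regular windows for tuples `p, p + h` (`h ∈ H`) with a prime first member
-/

namespace Pool.Agent.W182.PW

open Polynomial Finset Filter

open Classical in
/-- regular integers for a general property -/
def RegS (S : ℕ → ℝ → ℕ → Prop) (k r : ℕ) (c₁ c₂ K : ℝ) (n : ℕ) : Prop :=
  ∀ a b : ℕ, a ≤ n → n ≤ b → K * Real.log n ^ k ≤ (b : ℝ) - a → (b : ℝ) - a ≤ n →
    c₁ * ((b : ℝ) - a) / Real.log n ^ k ≤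
      (((Finset.Ioc a b).filter (fun m => S r ((n : ℝ) ^ (1 / (r : ℝ))) m)).card : ℝ) ∧
    (((Finset.Ioc a b).filter (fun m => S r ((n : ℝ) ^ (1 / (r : ℝ))) m)).card : ℝ) ≤
      c₂ * ((b : ℝ) - a) / Real.log n ^ k

lemma RegularP_eq {ι : Type} (f : ι → ℤ[X]) (S : ℕ → ℝ → ℕ → Prop) (h : PrimeAlmost f = S) :
    RegularP f = RegS S := by
  subst h
  rfl

/-- the property for tuples -/
def TupS (H : Finset ℕ) (r : ℕ) (z : ℝ) (p : ℕ) : Prop :=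
  p.Prime ∧ ∀ h ∈ H, (p + h).primeFactorsList.length ≤ r ∧
    ∀ q : ℕ, q.Prime → q ∣ p + h → z < (q : ℝ)

lemma tup_eq (H : Finset ℕ) :
    PrimeAlmost (fun i : {x // x ∈ H} => lin 1 ((i.1 : ℕ) : ℤ)) = TupS H := by
  funext r z p
  apply propext
  unfold PrimeAlmost TupS
  have h1 : ∀ b : ℕ, ((lin 1 (b : ℤ)).eval (p : ℤ)) = ((p + b : ℕ) : ℤ) := by
    intro b
    rw [lin_eval]
    push_cast
    ring
  simp only [h1, Int.natAbs_natCast, Int.natCast_dvd_natCast]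
  constructor
  · rintro ⟨h2, h3⟩
    exact ⟨h2, fun h hh => h3 ⟨h, hh⟩⟩
  · rintro ⟨h2, h3⟩
    exact ⟨h2, fun i => h3 i.1 i.2⟩

open Classical in
theorem main_tuple (H : Finset ℕ) (h0 : 0 ∉ H)
    (hadm : ∀ p : ℕ, p.Prime → ∃ m : ℕ, ¬ p ∣ m ∧ ∀ h ∈ H, ¬ p ∣ m + h) :
    ∃ (r : ℕ) (c₁ c₂ K κ : ℝ), 0 < c₁ ∧ 0 < c₂ ∧ 0 < K ∧ 0 < κ ∧
    ∀ᶠ x : ℕ in atTop,
      κ * x ≤ (((Finset.Icc 1 x).filter
        (fun n => RegS (TupS H) (H.card + 1) r c₁ c₂ K n)).card : ℝ) := by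
  have h := main (fun i : {x // x ∈ H} => lin 1 ((i.1 : ℕ) : ℤ))
    (fun i => lin_irr _ _ one_pos (by rw [Nat.cast_one]; exact isCoprime_one_left))
    (fun i => lin_deg _ _ one_pos) (fun i => lin_lead _ _ one_pos)
    (fun i j hij => Subtype.ext (by exact_mod_cast (lin_inj hij).2))
    (fun i => lin_ne_X (fun h => h0 (by
      have h1 : i.1 = 0 := by exact_mod_cast h.2
      rw [← h1]
      exact i.2)))
    (fun p hp => by
      obtain ⟨m, h1, h2⟩ := hadm p hp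
      refine ⟨m, h1, fun i => ?_⟩
      rw [lin_eval]
      have e : ((1 : ℕ) : ℤ) * (m : ℤ) + ((i.1 : ℕ) : ℤ) = ((m + i.1 : ℕ) : ℤ) := by
        push_cast
        ring
      rw [e, Int.natCast_dvd_natCast]
      exact h2 i.1 i.2)
  rw [Fintype.card_coe, RegularP_eq _ _ (tup_eq H)] at h
  exact h

/-- admissibility by a finite check -/
lemma adm_of (H : Finset ℕ) (B : ℕ) (hB : ∀ h ∈ H, h + 1 < B) (hB1 : 1 < B)
    (hc : ∀ p : ℕ, p < B → p.Prime → ∃ m : ℕ, ¬ p ∣ m ∧ ∀ h ∈ H, ¬ p ∣ m + h) :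
    ∀ p : ℕ, p.Prime → ∃ m : ℕ, ¬ p ∣ m ∧ ∀ h ∈ H, ¬ p ∣ m + h := by
  intro p hp
  rcases lt_or_ge p B with h | h
  · exact hc p h hp
  · refine ⟨1, Nat.not_dvd_of_pos_of_lt one_pos (by omega), fun t ht => ?_⟩
    have := hB t ht
    exact Nat.not_dvd_of_pos_of_lt (by omega) (by omega)

end Pool.Agent.W182.PW
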